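import Pool.Agent.H.MP_885f98_gt.NotInduced

namespace Pool.Agent.Results.MP_885f98_gt.NotLocallyRigid

open Pool.Agent.H.MP_885f98_gt

/-- The map `f : X → Y` is the restriction to `X` of the boundary extension of some isometry of
the quaternionic hyperbolic space of dimension `n + 1`. -/
def IsInducedByIsometry {n : ℕ} (f : Xset n → Sph (n + 1)) : Prop :=
  ∃ g : Ball (n + 1) → Ball (n + 1), IsHypIsometry g ∧ Induces g f

/-- Local quasisymmetric rigidity of `X` in `Y`, measured with the metric `d`: every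
quasisymmetric embedding `f : X → Y` whose supremum distance to the inclusion is less than some
fixed positive number is induced by an isometry. -/
def IsLocallyQSRigid (n : ℕ) (d : Sph (n + 1) → Sph (n + 1) → ℝ) : Prop :=
  ∃ ε : ℝ, 0 < ε ∧ ∀ f : Xset n → Sph (n + 1), IsQSEmbedding d f →
    (∃ r : ℝ, r < ε ∧ ∀ x : Xset n, d (f x) x ≤ r) → IsInducedByIsometry f

theorem result (n : ℕ) (hn : 2 ≤ n) :
    (∃ d : Sph (n + 1) → Sph (n + 1) → ℝ, IsVisualMetric d) ∧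
      ∀ d : Sph (n + 1) → Sph (n + 1) → ℝ, IsVisualMetric d → ¬ IsLocallyQSRigid n d := by
  refine ⟨⟨_, isVisualMetric_rho⟩, fun d hd => ?_⟩
  rintro ⟨ε, hε, hrig⟩
  obtain ⟨κ, D, hκ, hD, hcomp⟩ := hd.comparable
  -- a small bending angle
  have hlim : Filter.Tendsto (fun δ : ℝ => D * δ ^ κ) (nhdsWithin 0 (Set.Ioi 0)) (nhds 0) := by
    have h1 : Filter.Tendsto (fun δ : ℝ => D * δ ^ κ) (nhds 0) (nhds (D * (0 : ℝ) ^ κ)) :=
      ((Real.continuousAt_rpow_const 0 κ (Or.inr hκ.le)).tendsto).const_mul D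
    rw [Real.zero_rpow hκ.ne', mul_zero] at h1
    exact h1.mono_left nhdsWithin_le_nhds
  have hev : ∀ᶠ δ : ℝ in nhdsWithin 0 (Set.Ioi 0), D * δ ^ κ < ε ∧ δ ∈ Set.Ioo (0 : ℝ) 1 :=
    (hlim.eventually (gt_mem_nhds hε)).and (Ioo_mem_nhdsGT one_pos)
  obtain ⟨δ, hδε, hδ0, hδ1⟩ := hev.exists
  obtain ⟨g, hg, hgf⟩ := hrig (bend δ) (bend_qs hδ0.le hδ1.le hd)
    ⟨D * δ ^ κ, hδε, fun x => ((hcomp (bend δ x) x).2).trans
      (mul_le_mul_of_nonneg_left (Real.rpow_le_rpow (rho_nonneg _ _) (bend_close hδ0.le x) hκ.le)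
        hD.le)⟩
  exact bend_not_induced hn hδ0 hδ1.le hg hgf

end Pool.Agent.Results.MP_885f98_gt.NotLocallyRigid
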